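import Pool.Agent.PSS.StmtsG
import Pool.Agent.Helper85_AT3.LSB
import Pool.Agent.Helper75_PP.Transport
import Pool.Agent.Helper97_PP.Kri

/-!
# Squad PSS (MP_6a3f1a_al), row LTX: the number `lnum T γ` in a subgroup `X ≥ C(V)`
-/

open scoped BigOperators

noncomputable section

namespace Pool.Agent.PSS.H24

open Pool.Agent.Helper51_AWC Pool.Agent.Helper79_WRA Pool.Agent.PP Pool.Agent.PP.KF
open Pool.Agent.PP.K9 Pool.Agent.PP.K9.H97 Pool.Agent.PP.H75 Pool.Agent.PP.T3 Pool.Agent.PP.T2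

/-- `lnum` of a subgroup of `X` -/
theorem lnum_sub {F G : Type} [Field F] [Group G] (X Y : Subgroup G) (hY : Y ≤ X) (a : G → F) :
    lnum (Y.subgroupOf X) (fun t : X => a t) = lnum Y a := by
  have h1 := Pool.Agent.PP.H75.lnum_map X.subtype X.subtype_injective (Y.subgroupOf X) a
  rw [Subgroup.map_subgroupOf_eq_of_le hY] at h1
  exact h1.symm

theorem ltx : LtxStmt := by
  intro ℓ F _ G _ _ e V γ hL X hCX
  have hVX : V ≤ X := fun v hv => hCX (Subgroup.mem_centralizer_iff.2 fun w hw =>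
    hL.ab w hw v hv)
  have hT := H85.Tg_eq hVX hCX hL.gam.supp
  refine ⟨?_, fun v => ?_⟩
  · rw [hT]
    exact lnum_sub X _ inf_le_right γ
  · rw [hT]
    have h1 : (Tg V γ ⊓ X).subgroupOf X ⊓ Cu v = (Tg V γ ⊓ X ⊓ Cu (v : G)).subgroupOf X := by
      ext t
      rw [Subgroup.mem_inf, Subgroup.mem_subgroupOf, Subgroup.mem_subgroupOf, Subgroup.mem_inf,
        Subgroup.mem_inf (p := Tg V γ ⊓ X)]
      refine and_congr (Subgroup.mem_inf).symm.symm ?_
      rw [Subgroup.mem_centralizer_singleton_iff, Subgroup.mem_centralizer_singleton_iff]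
      exact ⟨fun h => congrArg Subtype.val h, fun h => Subtype.ext h⟩
    rw [h1]
    exact lnum_sub X _ (inf_le_left.trans inf_le_right) γ

end Pool.Agent.PSS.H24
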