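import Pool.Agent.PSS.StmtsOB
import Pool.Agent.Helper47_PSS.STN

/-! Squad PSS, row STW: one step of the deformation without target. -/

open scoped BigOperators TensorProduct

noncomputable section

namespace Pool.Agent.PSS.H24

open Pool.Agent.PFD.D2 (Cdv FibG)
open Pool.Agent.PFD.D2b (FrR)
open Finset

theorem stw (TRX : TrxStmt) (TRA : TraStmt) (TRC : TrcStmt) (H2W : H2wStmt) : StwStmt := by
  intro R K V E A B κ Ω _ _ _ _ _ _ _ _ _ _ _ _ _ _ _ φ W α lam x y b c C u hV hS hu P m N hT hI hFz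
  obtain ⟨⟨D, hD⟩, hW2, hNr⟩ := TRA K V B (ia C.i α) W P m hT
  have hdl : ∀ a₁ a₂ a₃, In C.i (dl (fun a b => m (N + 1) a b) (C.i a₁) (C.i a₂) (C.i a₃)) := by
    intro a₁ a₂ a₃
    have h := H47.dm_dl D N (C.i a₁) (C.i a₂) (C.i a₃)
    rw [hD] at h
    rw [h]
    refine H47.stn_in_sum (C.i : A →+* B) _ _ fun p hp => ?_
    obtain ⟨hp1, hp2, hp3⟩ := Finset.mem_filter.1 hp
    have hp4 := Finset.HasAntidiagonal.mem_antidiagonal.1 hp1
    obtain ⟨e1, he1⟩ := hI p.2 (by omega) a₁ a₂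
    obtain ⟨e2, he2⟩ := hI p.2 (by omega) a₂ a₃
    obtain ⟨e3, he3⟩ := hI p.1 (by omega) e1 a₃
    obtain ⟨e4, he4⟩ := hI p.1 (by omega) a₁ e2
    refine ⟨e3 - e4, ?_⟩
    show C.i (e3 - e4) = _
    rw [map_sub, he3, he4, he1, he2]
  obtain ⟨H, hH1, hH2, hH3⟩ := H2W R K V E A B κ Ω φ W α lam x y b c C u hV hS hu (m (N + 1))
    ⟨hW2 (N + 1), hNr N, hdl⟩ hFz
  let P' : ℕ → (B →ₗ[K] B) := fun n => if n = N + 1 then P (N + 1) - H else P n
  have hP' : ∀ n ≤ N, P' n = P n := by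
    intro n hn
    simp only [P']
    rw [if_neg (by omega)]
  have hPN : P' (N + 1) = P (N + 1) - H := by simp only [P', if_true]
  have hP0 : P' 0 = LinearMap.id := by rw [hP' 0 (Nat.zero_le _), hT.p0]
  have hPw : ∀ n, WBl (ia C.i α) W (P' n) := by
    intro n
    by_cases hn : n = N + 1
    · rw [hn, hPN]
      intro w hw a
      rw [LinearMap.sub_apply, LinearMap.sub_apply, LinearMap.sub_apply,
        (hT.pw (N + 1) w hw a).1, (hT.pw (N + 1) w hw a).2, (hH1 w hw a).1, (hH1 w hw a).2,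
        mul_sub, sub_mul]
      exact ⟨rfl, rfl⟩
    · have : P' n = P n := by simp only [P']; rw [if_neg hn]
      rw [this]
      exact hT.pw n
  have hP1 : ∀ n, P' (n + 1) 1 = 0 := by
    intro n
    by_cases hn : n + 1 = N + 1
    · rw [hn, hPN, LinearMap.sub_apply, hT.p1, hH2, sub_zero]
    · have : P' (n + 1) = P (n + 1) := by simp only [P']; rw [if_neg hn]
      rw [this]
      exact hT.p1 n
  obtain ⟨m', hm'⟩ := TRX K V B (ia C.i α) W P' hP0 hPw hP1
  obtain ⟨hc1, hc2⟩ := TRC K V B (ia C.i α) W P P' m m' N hT hm' hP'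
  refine ⟨P', m', hm', hP', fun n hn a₁ a₂ => ?_⟩
  by_cases hnN : n ≤ N
  · rw [hc1 n hnN]
    exact hI n hnN a₁ a₂
  · have hn' : n = N + 1 := by omega
    rw [hn', hc2]
    have : d1 (fun a => P' (N + 1) a - P (N + 1) a) (C.i a₁) (C.i a₂) =
        - d1 H (C.i a₁) (C.i a₂) := by
      simp only [d1, hPN, LinearMap.sub_apply]
      noncomm_ring
    rw [this, ← sub_eq_add_neg]
    exact hH3 a₁ a₂

end Pool.Agent.PSS.H24
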